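import Mathlib

/-!
# Commuting operators and fixed points; restriction of semisimple representations
-/

open Function

namespace Pool.Agent.N178.Ss

section Fixed

variable {K : Type*} [Field K] {A : Type*} [AddCommGroup A] [Module K A] [FiniteDimensional K A]
  {ι : Type*} {T : ι → Module.End K A}

/-- Stable subspaces. -/
def Stab (T : ι → Module.End K A) (S : Submodule K A) : Prop := ∀ g, ∀ x ∈ S, T g x ∈ S

omit [FiniteDimensional K A] in
lemma Stab.pow {S : Submodule K A} (hS : Stab T S) (g : ι) (n : ℕ) {x : A} (hx : x ∈ S) :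
    (T g ^ n) x ∈ S := by
  induction n with
  | zero => simpa using hx
  | succ n ih =>
    rw [pow_succ', Module.End.mul_apply]
    exact hS g _ ih

omit [FiniteDimensional K A] in
lemma Stab.inf {S S' : Submodule K A} (h : Stab T S) (h' : Stab T S') : Stab T (S ⊓ S') :=
  fun g x hx => ⟨h g x hx.1, h' g x hx.2⟩

omit [FiniteDimensional K A] in
lemma Stab.sup {S S' : Submodule K A} (h : Stab T S) (h' : Stab T S') : Stab T (S ⊔ S') := by
  intro g x hx
  obtain ⟨y, hy, z, hz, rfl⟩ := Submodule.mem_sup.1 hx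
  rw [map_add]
  exact Submodule.add_mem _ (Submodule.mem_sup_left (h g y hy)) (Submodule.mem_sup_right (h' g z hz))

omit [FiniteDimensional K A] in
lemma stab_ker (hc : ∀ g h, Commute (T g) (T h)) (g : ι) (n : ℕ) :
    Stab T (LinearMap.ker (T g ^ n)) := by
  intro h x hx
  rw [LinearMap.mem_ker] at hx ⊢
  have h1 : (T g ^ n) * T h = T h * (T g ^ n) := ((hc g h).pow_left n).eq
  rw [← Module.End.mul_apply, h1, Module.End.mul_apply, hx, map_zero]

omit [FiniteDimensional K A] in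
lemma stab_map (hc : ∀ g h, Commute (T g) (T h)) {S : Submodule K A} (hS : Stab T S) (g : ι) :
    Stab T (S.map (T g)) := by
  rintro h _ ⟨x, hx, rfl⟩
  refine ⟨T h x, hS h x hx, ?_⟩
  rw [← Module.End.mul_apply, (hc g h).eq, Module.End.mul_apply]

/-- The part of an element of `P` on which the operator is bijective is in `B`. -/
lemma split_mem (f : Module.End K A) {B : Submodule K A} (hB : ∀ b ∈ B, f b ∈ B) {x : A}
    (hx : f x ∈ B) : ∃ n, ∃ b ∈ B, (f ^ n) (x - b) = 0 := by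
  obtain ⟨n, hn1, hn⟩ : ∃ n, 1 ≤ n ∧ IsCompl (LinearMap.ker (f ^ n)) (LinearMap.range (f ^ n)) := by
    obtain ⟨n, hn⟩ := Filter.eventually_atTop.1 f.eventually_isCompl_ker_pow_range_pow
    exact ⟨n + 1, by omega, hn _ (by omega)⟩
  obtain ⟨x0, hx0, xp, hxp, hsum⟩ := Submodule.mem_sup.1
    (show x ∈ LinearMap.ker (f ^ n) ⊔ LinearMap.range (f ^ n) by
      rw [hn.sup_eq_top]; trivial)
  have hBn : ∀ m, ∀ b ∈ B, (f ^ m) b ∈ B := by
    intro m b hb
    induction m with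
    | zero => simpa using hb
    | succ m ih =>
      rw [pow_succ', Module.End.mul_apply]
      exact hB _ ih
  have h1 : (f ^ n) xp ∈ B := by
    have h2 : (f ^ n) x = (f ^ n) xp := by
      rw [← hsum, map_add, LinearMap.mem_ker.1 hx0, zero_add]
    rw [← h2]
    obtain ⟨m, rfl⟩ : ∃ m, n = m + 1 := ⟨n - 1, by omega⟩
    rw [pow_succ, Module.End.mul_apply]
    exact hBn m _ hx
  set C : Submodule K A := B ⊓ LinearMap.range (f ^ n) with hC
  have hCs : ∀ c ∈ C, (f ^ n) c ∈ C := fun c hc => ⟨hBn n c hc.1, ⟨c, rfl⟩⟩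
  have hinj : Injective ((f ^ n).restrict hCs) := by
    rw [injective_iff_map_eq_zero]
    intro c hc
    have h3 : (f ^ n) c.1 = 0 := congrArg Subtype.val hc
    have h4 : c.1 ∈ LinearMap.ker (f ^ n) ⊓ LinearMap.range (f ^ n) := ⟨h3, c.2.2⟩
    rw [hn.inf_eq_bot, Submodule.mem_bot] at h4
    exact Subtype.ext h4
  have hsurj := (LinearMap.injective_iff_surjective (f := (f ^ n).restrict hCs)).1 hinj
  obtain ⟨c, hc⟩ := hsurj ⟨(f ^ n) xp, h1, ⟨xp, rfl⟩⟩
  have h5 : (f ^ n) c.1 = (f ^ n) xp := congrArg Subtype.val hc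
  refine ⟨n, c.1, c.2.1, ?_⟩
  rw [← hsum, map_sub, map_add, LinearMap.mem_ker.1 hx0, h5, zero_add, sub_self]

/-- Operators which commute and whose common generalized kernel is the common kernel: an affine
subspace on whose direction they act, and which they map to the direction, has a fixed point. -/
theorem exists_fixed (hc : ∀ g h, Commute (T g) (T h)) {B : Submodule K A} (hB : Stab T B)
    {P : Set A} (hP : P.Nonempty) (hPB : ∀ x ∈ P, ∀ b ∈ B, x - b ∈ P)
    (hTP : ∀ g, ∀ x ∈ P, T g x ∈ B) (h2 : ∀ x, (∀ g h, T h (T g x) = 0) → ∀ g, T g x = 0) :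
    ∃ x ∈ P, ∀ g, T g x = 0 := by
  obtain ⟨S, ⟨hS, x, hxS, hxP⟩, hmin⟩ := (wellFounded_lt (α := Submodule K A)).has_min
    {S | Stab T S ∧ ∃ x ∈ S, x ∈ P} ⟨⊤, fun _ _ _ => trivial, by
      obtain ⟨x, hx⟩ := hP
      exact ⟨x, trivial, hx⟩⟩
  -- the operators are nilpotent on `S`
  have hnil : ∀ g, ∃ n, ∀ y ∈ S, (T g ^ n) y = 0 := by
    intro g
    have hBS : ∀ b ∈ B.comap S.subtype, (T g).restrict (hS g) b ∈ B.comap S.subtype := by
      intro b hb
      exact hB g _ hb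
    obtain ⟨n, b, hb, hn⟩ := split_mem ((T g).restrict (hS g)) hBS (x := ⟨x, hxS⟩)
      (show T g x ∈ B from hTP g x hxP)
    refine ⟨n, ?_⟩
    have h3 : (T g ^ n) (x - b.1) = 0 := by
      have h4 := congrArg Subtype.val hn
      rw [Module.End.pow_restrict] at h4
      exact h4
    by_contra hcon
    refine hmin (S ⊓ LinearMap.ker (T g ^ n)) ⟨hS.inf (stab_ker hc g n), x - b.1,
      ⟨S.sub_mem hxS b.2, h3⟩, hPB x hxP _ hb⟩ (lt_of_le_of_ne inf_le_left fun he => ?_)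
    apply hcon
    intro y hy
    rw [← he] at hy
    exact hy.2
  set F : Submodule K A := S ⊓ ⨅ g, LinearMap.ker (T g) with hF
  have hmemF : ∀ y, y ∈ F ↔ y ∈ S ∧ ∀ g, T g y = 0 := by
    intro y
    rw [hF, Submodule.mem_inf, Submodule.mem_iInf]
    rfl
  have hFst : Stab T F := by
    intro g y hy
    rw [hmemF] at hy ⊢
    rw [hy.2 g]
    exact ⟨S.zero_mem, fun _ => map_zero _⟩
  by_cases hFS : F = S
  · have h3 : x ∈ F := by rw [hFS]; exact hxS
    exact ⟨x, hxP, ((hmemF x).1 h3).2⟩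
  exfalso
  obtain ⟨S', ⟨hS', hlt, hle⟩, hmin'⟩ := (wellFounded_lt (α := Submodule K A)).has_min
    {S' | Stab T S' ∧ F < S' ∧ S' ≤ S} ⟨S, hS, lt_of_le_of_ne inf_le_left hFS, le_rfl⟩
  have hTF : ∀ g, ∀ y ∈ S', T g y ∈ F := by
    intro g
    have h3 : Stab T (F ⊔ S'.map (T g)) := hFst.sup (stab_map hc hS' g)
    have h4 : F ⊔ S'.map (T g) ≤ S' := sup_le hlt.le (by
      rintro _ ⟨y, hy, rfl⟩
      exact hS' g y hy)
    by_cases h5 : F ⊔ S'.map (T g) = S'
    · exfalso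
      obtain ⟨n, hn⟩ := hnil g
      have h6 : ∀ m, S' ≤ F ⊔ S'.map (T g ^ m) := by
        intro m
        induction m with
        | zero =>
          intro y hy
          exact Submodule.mem_sup_right ⟨y, hy, by simp⟩
        | succ m ih =>
          intro y hy
          obtain ⟨a, ha, _, ⟨b, hb, rfl⟩, rfl⟩ := Submodule.mem_sup.1 (ih hy)
          have h7 : b ∈ F ⊔ S'.map (T g) := by rw [h5]; exact hb
          obtain ⟨c, hc', _, ⟨d, hd, rfl⟩, rfl⟩ := Submodule.mem_sup.1 h7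
          rw [map_add, ← add_assoc]
          refine Submodule.add_mem _ (Submodule.add_mem _ (Submodule.mem_sup_left ha)
            (Submodule.mem_sup_left (hFst.pow g m hc'))) (Submodule.mem_sup_right ⟨d, hd, ?_⟩)
          rw [pow_succ, Module.End.mul_apply]
      have h8 : S' ≤ F := by
        intro y hy
        obtain ⟨a, ha, _, ⟨b, hb, rfl⟩, rfl⟩ := Submodule.mem_sup.1 (h6 n hy)
        rw [hn b (hle hb), add_zero]
        exact ha
      exact absurd hlt (not_lt_of_ge h8)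
    · intro y hy
      by_contra h6
      refine hmin' (F ⊔ S'.map (T g)) ⟨h3, lt_of_le_of_ne le_sup_left fun he => h6 ?_,
        h4.trans hle⟩ (lt_of_le_of_ne h4 h5)
      rw [he]
      exact Submodule.mem_sup_right ⟨y, hy, rfl⟩
  have h8 : S' ≤ F := by
    intro y hy
    rw [hmemF]
    refine ⟨hle hy, h2 y fun g h => ?_⟩
    exact ((hmemF _).1 (hTF g y hy)).2 h
  exact absurd hlt (not_lt_of_ge h8)

end Fixed

section Clifford

variable {K : Type*} [Field K] {A : Type*} [Ring A] [Algebra K A] [FiniteDimensional K A]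
  {Γ : Type*} [Group Γ] {ρ : Γ →* (A ≃ₐ[K] A)}

/-- The subspace `M` is stable under `Δ`. -/
def Inv (ρ : Γ →* (A ≃ₐ[K] A)) (Δ : Subgroup Γ) (M : Submodule K A) : Prop :=
  ∀ g ∈ Δ, ∀ a ∈ M, ρ g a ∈ M

/-- Every subspace of `T` stable under `Δ` has a complement in `T` which is stable under `Δ`. -/
def SS (ρ : Γ →* (A ≃ₐ[K] A)) (Δ : Subgroup Γ) (T : Submodule K A) : Prop :=
  ∀ M ≤ T, Inv ρ Δ M → ∃ M' ≤ T, Inv ρ Δ M' ∧ M ⊓ M' = ⊥ ∧ M ⊔ M' = T

omit [FiniteDimensional K A] in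
lemma Inv.inf {Δ : Subgroup Γ} {M M' : Submodule K A} (h : Inv ρ Δ M) (h' : Inv ρ Δ M') :
    Inv ρ Δ (M ⊓ M') := fun g hg a ha => ⟨h g hg a ha.1, h' g hg a ha.2⟩

omit [FiniteDimensional K A] in
lemma Inv.sup {Δ : Subgroup Γ} {M M' : Submodule K A} (h : Inv ρ Δ M) (h' : Inv ρ Δ M') :
    Inv ρ Δ (M ⊔ M') := by
  intro g hg a ha
  obtain ⟨b, hb, c, hc, rfl⟩ := Submodule.mem_sup.1 ha
  rw [map_add]
  exact Submodule.add_mem _ (Submodule.mem_sup_left (h g hg b hb))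
    (Submodule.mem_sup_right (h' g hg c hc))

omit [FiniteDimensional K A] in
lemma Inv.mono {Δ Δ' : Subgroup Γ} {M : Submodule K A} (h : Inv ρ Δ M) (hΔ : Δ' ≤ Δ) :
    Inv ρ Δ' M := fun g hg a ha => h g (hΔ hg) a ha

/-- Simple subspaces. -/
structure Simple (ρ : Γ →* (A ≃ₐ[K] A)) (Δ : Subgroup Γ) (T S : Submodule K A) : Prop where
  le : S ≤ T
  inv : Inv ρ Δ S
  ne : S ≠ ⊥
  min : ∀ S' ≤ S, Inv ρ Δ S' → S' = ⊥ ∨ S' = S

lemma exists_simple {Δ : Subgroup Γ} {T C : Submodule K A} (hC : C ≤ T) (hi : Inv ρ Δ C)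
    (hne : C ≠ ⊥) : ∃ S ≤ C, Simple ρ Δ T S := by
  obtain ⟨S, ⟨h1, h2, h3⟩, hmin⟩ := (wellFounded_lt (α := Submodule K A)).has_min
    {S | S ≤ C ∧ Inv ρ Δ S ∧ S ≠ ⊥} ⟨C, le_rfl, hi, hne⟩
  refine ⟨S, h1, h1.trans hC, h2, h3, fun S' hS' hi' => ?_⟩
  by_contra hcon
  rw [not_or] at hcon
  exact hmin S' ⟨hS'.trans h1, hi', hcon.1⟩ (lt_of_le_of_ne hS' hcon.2)

omit [FiniteDimensional K A] in
lemma rho_mul (g h : Γ) (a : A) : ρ (g * h) a = ρ g (ρ h a) := by
  rw [map_mul]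
  rfl

omit [FiniteDimensional K A] in
lemma rho_inv (g : Γ) (a : A) : ρ g (ρ g⁻¹ a) = a := by
  rw [← rho_mul, mul_inv_cancel, map_one]
  rfl

omit [FiniteDimensional K A] in
lemma rho_inv' (g : Γ) (a : A) : ρ g⁻¹ (ρ g a) = a := by
  rw [← rho_mul, inv_mul_cancel, map_one]
  rfl

/-- **Clifford's theorem.** -/
theorem SS.normal {Δ : Subgroup Γ} (hΔ : Δ.Normal) {T : Submodule K A} (hT : Inv ρ ⊤ T)
    (h : SS ρ ⊤ T) : SS ρ Δ T := by
  -- the sum of the simple subspaces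
  set soc : Submodule K A := sSup {S | Simple ρ Δ T S} with hsoc
  have hsocT : soc ≤ T := sSup_le fun S hS => hS.le
  have hmap : ∀ (g : Γ) (S : Submodule K A), Simple ρ Δ T S →
      Simple ρ Δ T (S.map (ρ g).toLinearMap) := by
    intro g S hS
    refine ⟨?_, ?_, ?_, ?_⟩
    · rintro _ ⟨x, hx, rfl⟩
      exact hT g (Subgroup.mem_top g) x (hS.le hx)
    · rintro h hh _ ⟨x, hx, rfl⟩
      refine ⟨ρ (g⁻¹ * h * g) x, hS.inv _ ?_ x hx, ?_⟩
      · have := hΔ.conj_mem h hh g⁻¹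
        rwa [inv_inv] at this
      · change ρ g (ρ (g⁻¹ * h * g) x) = ρ h (ρ g x)
        rw [← rho_mul, ← rho_mul]
        congr 2
        group
    · intro h0
      apply hS.ne
      rw [eq_bot_iff]
      intro x hx
      have h1 : ρ g x ∈ S.map (ρ g).toLinearMap := ⟨x, hx, rfl⟩
      rw [h0, Submodule.mem_bot] at h1
      rw [Submodule.mem_bot, ← rho_inv' (ρ := ρ) g x, h1, map_zero]
    · intro S' hS' hi'
      have h1 : Inv ρ Δ (S'.map (ρ g⁻¹).toLinearMap) := by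
        rintro h hh _ ⟨x, hx, rfl⟩
        refine ⟨ρ (g * h * g⁻¹) x, hi' _ (hΔ.conj_mem h hh g) x hx, ?_⟩
        change ρ g⁻¹ (ρ (g * h * g⁻¹) x) = ρ h (ρ g⁻¹ x)
        rw [← rho_mul, ← rho_mul]
        congr 2
        group
      have h2 : S'.map (ρ g⁻¹).toLinearMap ≤ S := by
        rintro _ ⟨x, hx, rfl⟩
        obtain ⟨y, hy, rfl⟩ := hS' hx
        change ρ g⁻¹ (ρ g y) ∈ S
        rw [rho_inv']
        exact hy
      rcases hS.min _ h2 h1 with h3 | h3
      · left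
        rw [eq_bot_iff]
        intro x hx
        have h4 : ρ g⁻¹ x ∈ S'.map (ρ g⁻¹).toLinearMap := ⟨x, hx, rfl⟩
        rw [h3, Submodule.mem_bot] at h4
        rw [Submodule.mem_bot, ← rho_inv (ρ := ρ) g x, h4, map_zero]
      · right
        apply le_antisymm hS'
        rintro _ ⟨x, hx, rfl⟩
        rw [← h3] at hx
        obtain ⟨y, hy, rfl⟩ := hx
        change ρ g (ρ g⁻¹ y) ∈ S'
        rw [rho_inv]
        exact hy
  have hsoci : Inv ρ ⊤ soc := by
    intro g _ a ha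
    rw [hsoc, sSup_eq_iSup'] at ha ⊢
    refine Submodule.iSup_induction _ (motive := fun a => ρ g a ∈ ⨆ S : {S | Simple ρ Δ T S},
      (S : Submodule K A)) ha ?_ ?_ ?_
    · intro S x hx
      exact Submodule.mem_iSup_of_mem ⟨_, hmap g S.1 S.2⟩ ⟨x, hx, rfl⟩
    · rw [map_zero]
      exact Submodule.zero_mem _
    · intro x y hx hy
      rw [map_add]
      exact Submodule.add_mem _ hx hy
  obtain ⟨C, hCT, hCi, hC1, hC2⟩ := h soc hsocT hsoci
  have hC0 : C = ⊥ := by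
    by_contra hne
    obtain ⟨S, hSC, hS⟩ := exists_simple hCT (hCi.mono le_top) hne
    have h1 : S ≤ soc := le_sSup hS
    apply hS.ne
    rw [eq_bot_iff, ← hC1]
    exact le_inf h1 hSC
  have hsocT' : soc = T := by rw [← hC2, hC0, sup_bot_eq]
  intro M hMT hMi
  obtain ⟨C, ⟨h1, h2, h3⟩, hmax⟩ := (wellFounded_gt (α := Submodule K A)).has_min
    {C | C ≤ T ∧ Inv ρ Δ C ∧ M ⊓ C = ⊥} ⟨⊥, bot_le, fun g _ a ha => by
      rw [Submodule.mem_bot] at ha ⊢
      rw [ha, map_zero], inf_bot_eq _⟩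
  refine ⟨C, h1, h2, h3, ?_⟩
  by_contra hne
  have hlt : ¬ soc ≤ M ⊔ C := fun hle => hne (le_antisymm (sup_le hMT h1) (hsocT' ▸ hle))
  obtain ⟨S, hS, hSn⟩ : ∃ S, Simple ρ Δ T S ∧ ¬ S ≤ M ⊔ C := by
    by_contra hcon
    push Not at hcon
    exact hlt (sSup_le hcon)
  have h4 : S ⊓ (M ⊔ C) = ⊥ := by
    rcases hS.min _ inf_le_left (hS.inv.inf (hMi.sup h2)) with h5 | h5
    · exact h5
    · exact absurd (inf_eq_left.1 h5) hSn
  refine hmax (C ⊔ S) ⟨sup_le h1 hS.le, h2.sup hS.inv, ?_⟩ (lt_of_le_of_ne le_sup_left fun he => ?_)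
  · rw [eq_bot_iff]
    rintro m ⟨hm, hm'⟩
    obtain ⟨c, hc, s, hs, hcs⟩ := Submodule.mem_sup.1 hm'
    have h5 : s ∈ S ⊓ (M ⊔ C) := by
      refine ⟨hs, ?_⟩
      have h6 : s = m - c := by rw [← hcs, add_sub_cancel_left]
      rw [h6]
      exact Submodule.sub_mem _ (Submodule.mem_sup_left hm) (Submodule.mem_sup_right hc)
    rw [h4, Submodule.mem_bot] at h5
    rw [h5, add_zero] at hcs
    rw [← h3]
    exact ⟨hm, hcs ▸ hc⟩
  · apply hSn
    have h5 : S ≤ C := by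
      rw [he]
      exact le_sup_right
    exact h5.trans le_sup_right

end Clifford

end Pool.Agent.N178.Ss
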