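import Pool.Agent.N178.SsDefs
import Pool.Agent.R936.UniGeo
import Pool.Agent.H447R3.KuB

/-!
# The action on correspondences
-/

open CategoryTheory AlgebraicGeometry

universe u v w

namespace Pool.Agent.N178.Ss

open Pool.Agent.H914 Pool.Agent.H914.VarClass Pool.Agent.H914.VarClass.Obj
  Pool.Agent.H914.WeilCohomology Pool.Agent.TH125.Gal Pool.Agent.R936 Pool.Agent.H447

variable {k : Type u} [Field k] {𝒱 : VarClass k} {ops : CycleOps 𝒱}
  {W : WeilCohomology.{u, v} ops} {X : 𝒱.Obj} {G : SquareAction.{u, v, w} W X}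

/-- The action as linear operators. -/
noncomputable def rl (G : SquareAction.{u, v, w} W X) (g : G.Γ) : Module.End W.K (W.H X) :=
  (G.ρ g).toLinearMap

@[simp] lemma rl_apply (g : G.Γ) (a : W.H X) : rl G g a = G.ρ g a := rfl

lemma rl_mul (g h : G.Γ) : rl G (g * h) = rl G g * rl G h := by
  apply LinearMap.ext
  intro a
  exact rho_mul g h a

lemma rl_one : rl G 1 = 1 := by
  apply LinearMap.ext
  intro a
  rw [rl_apply, map_one]
  rfl

lemma rl_inv (g : G.Γ) : rl G g * rl G g⁻¹ = 1 := by rw [← rl_mul, mul_inv_cancel, rl_one]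

lemma rl_inv' (g : G.Γ) : rl G g⁻¹ * rl G g = 1 := by rw [← rl_mul, inv_mul_cancel, rl_one]

lemma rl_isHom (g : G.Γ) : IsHom (W.gr X) 0 (rl G g) := by
  intro i a ha
  rw [add_zero]
  by_cases hi : 0 ≤ i
  · lift i to ℕ using hi
    rw [grZ_natCast] at ha ⊢
    exact G.galois.gr_mem g i a ha
  · rw [grZ_of_neg (by omega)] at ha ⊢
    rw [Submodule.mem_bot] at ha ⊢
    rw [ha, map_zero]

/-- The conjugation on the operators. -/
noncomputable def cj (G : SquareAction.{u, v, w} W X) (g : G.Γ) :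
    Module.End W.K (Module.End W.K (W.H X)) where
  toFun x := rl G g * x * rl G g⁻¹
  map_add' x y := by rw [mul_add, add_mul]
  map_smul' c x := by
    rw [mul_smul_comm, smul_mul_assoc]
    rfl

lemma cj_apply (g : G.Γ) (x : Module.End W.K (W.H X)) : cj G g x = rl G g * x * rl G g⁻¹ := rfl

lemma cj_mul (g h : G.Γ) (x : Module.End W.K (W.H X)) : cj G (g * h) x = cj G g (cj G h x) := by
  rw [cj_apply, cj_apply, cj_apply, rl_mul, mul_inv_rev, rl_mul]
  simp only [mul_assoc]

lemma cj_one (x : Module.End W.K (W.H X)) : cj G 1 x = x := by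
  rw [cj_apply, inv_one, rl_one, one_mul, mul_one]

/-- The operator commutes with the action of `g`. -/
lemma cj_eq_iff {g : G.Γ} {x : Module.End W.K (W.H X)} :
    cj G g x = x ↔ ∀ a, x (G.ρ g a) = G.ρ g (x a) := by
  constructor
  · intro h a
    have h1 : rl G g * x = x * rl G g := by
      conv_rhs => rw [← h, cj_apply, mul_assoc, mul_assoc, rl_inv', mul_one]
    exact (LinearMap.congr_fun h1 a).symm
  · intro h
    have h1 : rl G g * x = x * rl G g := by
      apply LinearMap.ext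
      intro a
      exact (h a).symm
    rw [cj_apply, h1, mul_assoc, rl_inv, mul_one]

lemma cj_isHom {g : G.Γ} {x : Module.End W.K (W.H X)} (hx : IsHom (W.gr X) 0 x) :
    IsHom (W.gr X) 0 (cj G g x) := by
  have h1 := ((rl_isHom g).mul hx).mul (rl_isHom g⁻¹)
  rw [cj_apply]
  simpa using h1

/-- Push-forward and the action. -/
lemma push_act' (g : G.Γ) (c : W.H (X.prod X)) :
    G.ρ g (W.push (snd X X) c) = ((G.χ g : W.K) ^ X.dim)⁻¹ • W.push (snd X X) (G.υ g c) := by
  have hχ : ((G.χ g : W.K) ^ X.dim) ≠ 0 := pow_ne_zero _ (Units.ne_zero _)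
  have h1 : ((G.χ g : W.K) ^ (X.prod X).dim) • G.ρ g (W.push (snd X X) c) =
      ((G.χ g : W.K) ^ X.dim) • W.push (snd X X) (G.υ g c) := by
    apply W.tr_ext
    intro y'
    obtain ⟨y, rfl⟩ := (G.ρ g).surjective y'
    rw [smul_mul_assoc, smul_mul_assoc, map_smul, map_smul, ← map_mul, G.galois.tr_act, W.tr_push,
      W.tr_push, ← G.right, ← map_mul, G.galoisSq.tr_act, smul_eq_mul, smul_eq_mul]
    ring
  have h2 : ((G.χ g : W.K) ^ X.dim) • (((G.χ g : W.K) ^ X.dim) • G.ρ g (W.push (snd X X) c)) =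
      ((G.χ g : W.K) ^ X.dim) • W.push (snd X X) (G.υ g c) := by
    rw [smul_smul, ← pow_add, ← h1, dim_prod]
  have h3 := smul_right_injective (W.H X) hχ h2
  beta_reduce at h3
  rw [← h3, smul_smul, inv_mul_cancel₀ hχ, one_smul]

/-- The action on the operator of a correspondence. -/
lemma corr_act (g : G.Γ) (c : W.H (X.prod X)) :
    W.corr (G.υ g c) = ((G.χ g : W.K) ^ X.dim) • cj G g (W.corr c) := by
  have hχ : ((G.χ g : W.K) ^ X.dim) ≠ 0 := pow_ne_zero _ (Units.ne_zero _)
  apply LinearMap.ext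
  intro a'
  obtain ⟨a, rfl⟩ := (G.ρ g).surjective a'
  have h1 : (((G.χ g : W.K) ^ X.dim) • cj G g (W.corr c)) (G.ρ g a) =
      ((G.χ g : W.K) ^ X.dim) • G.ρ g (W.corr c a) := by
    rw [LinearMap.smul_apply, cj_apply, Module.End.mul_apply, Module.End.mul_apply, rl_apply,
      rl_apply, rho_inv']
  rw [h1, corr_apply, corr_apply, push_act', smul_smul, mul_inv_cancel₀ hχ, one_smul,
    map_mul (G.υ g), G.left]

/-- Equivariance and the Tate property. -/
lemma fix_iff {g : G.Γ} {c : W.H (X.prod X)} :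
    G.υ g c = ((G.χ g : W.K) ^ X.dim) • c ↔ cj G g (W.corr c) = W.corr c := by
  have hχ : ((G.χ g : W.K) ^ X.dim) ≠ 0 := pow_ne_zero _ (Units.ne_zero _)
  constructor
  · intro h
    have h1 := corr_act g c
    rw [h, corr_smul] at h1
    exact (smul_right_injective _ hχ h1).symm
  · intro h
    have h1 := corr_act g c
    rw [h, ← corr_smul] at h1
    have h2 : W.corr (G.υ g c - ((G.χ g : W.K) ^ X.dim) • c) = 0 := by
      rw [corr_sub', h1, sub_self]
    exact sub_eq_zero.1 (corr_inj h2)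

lemma sub_act {g : G.Γ} {c : W.H (X.prod X)} :
    W.corr (G.υ g c - ((G.χ g : W.K) ^ X.dim) • c) =
      ((G.χ g : W.K) ^ X.dim) • (cj G g (W.corr c) - W.corr c) := by
  rw [corr_sub', corr_act, corr_smul, smul_sub]

lemma isHom_of_gr {c : W.H (X.prod X)} (hc : c ∈ W.gr (X.prod X) (2 * X.dim)) :
    IsHom (W.gr X) 0 (W.corr c) := by
  have h1 := W.corr_isHom hc
  rwa [sub_self, mul_zero] at h1

/-- Unipotent classes are algebraic: the consequence for the operators. -/
lemma fixed_of_two (h : UniAlg W (X.prod X) G.χ G.υ X.dim) {x : Module.End W.K (W.H X)}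
    (hx : IsHom (W.gr X) 0 x) (h2 : ∀ g h, cj G h (cj G g x - x) = cj G g x - x) (g : G.Γ) :
    cj G g x = x := by
  obtain ⟨c, hc, rfl⟩ := exists_class_zero hx
  -- the class is unipotent
  have hc1 : ∀ g, G.υ g c - ((G.χ g : W.K) ^ X.dim) • c ∈ W.gr (X.prod X) (2 * X.dim) := fun g =>
    Submodule.sub_mem _ (G.galoisSq.gr_mem g _ c hc) (Submodule.smul_mem _ _ hc)
  have hu : IsUni G.χ (W.gr (X.prod X)) G.υ X.dim c := by
    refine ⟨⊤, inferInstance, 2, mem_uniStep_succ.2 ⟨hc, fun g _ => mem_uniStep_succ.2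
      ⟨hc1 g, fun g' _ => ?_⟩⟩⟩
    rw [uniStep_zero, Submodule.mem_bot, sub_eq_zero, fix_iff, sub_act, map_smul, h2]
  obtain ⟨Δ, hΔ, h3⟩ := span_fix G.galoisSq (h c hu)
  -- a power of `g` is in the subgroup of finite index
  obtain ⟨m, hm0, -, hm⟩ := Subgroup.exists_pow_mem_of_index_ne_zero hΔ.index_ne_zero g
  have h4 : cj G (g ^ m) (W.corr c) = W.corr c := fix_iff.1 (h3 _ hm)
  have h5 : ∀ m : ℕ, cj G (g ^ m) (W.corr c) = W.corr c + (m : W.K) • (cj G g (W.corr c) -
      W.corr c) := by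
    intro m
    induction m with
    | zero => rw [pow_zero, cj_one, Nat.cast_zero, zero_smul, add_zero]
    | succ m ih =>
      rw [pow_succ', cj_mul, ih, map_add, map_smul, h2, Nat.cast_succ, add_smul, one_smul]
      abel
  rw [h5] at h4
  have h6 : (m : W.K) • (cj G g (W.corr c) - W.corr c) = 0 := left_eq_add.1 h4.symm
  rcases smul_eq_zero.1 h6 with h7 | h7
  · exact absurd (Nat.cast_eq_zero.1 h7) (by omega)
  · exact sub_eq_zero.1 h7

/-- The sum of the other degrees. -/
lemma isCompl_of_split {i : ℕ} {M M' : Submodule W.K (W.H X)} (h1 : M ⊓ M' = ⊥)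
    (h2 : M ⊔ M' = W.gr X i) :
    IsCompl M (M' ⊔ LinearMap.ker (proj (W.isInternal X) i)) := by
  have hM : M ≤ W.gr X i := h2 ▸ le_sup_left
  have hM' : M' ≤ W.gr X i := h2 ▸ le_sup_right
  constructor
  · rw [disjoint_iff, eq_bot_iff]
    rintro m ⟨hm, hm'⟩
    obtain ⟨a, ha, b, hb, hab⟩ := Submodule.mem_sup.1 hm'
    have h3 := congrArg (proj (W.isInternal X) i) hab
    rw [map_add, proj_same _ (hM' ha), LinearMap.mem_ker.1 hb, add_zero, proj_same _ (hM hm)] at h3
    rw [← h1]
    exact ⟨hm, h3 ▸ ha⟩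
  · rw [codisjoint_iff, eq_top_iff]
    intro x _
    have h3 : proj (W.isInternal X) i x ∈ M ⊔ M' := by
      rw [h2]
      exact proj_mem _ _ _
    have h4 : x - proj (W.isInternal X) i x ∈ LinearMap.ker (proj (W.isInternal X) i) := by
      rw [LinearMap.mem_ker, map_sub, proj_same _ (proj_mem _ _ _), sub_self]
    obtain ⟨a, ha, b, hb, hab⟩ := Submodule.mem_sup.1 h3
    have h5 : x = a + (b + (x - proj (W.isInternal X) i x)) := by
      rw [← add_assoc, hab, add_sub_cancel]
    rw [h5]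
    exact Submodule.add_mem _ (Submodule.mem_sup_left ha) (Submodule.mem_sup_right
      (Submodule.add_mem _ (Submodule.mem_sup_left hb) (Submodule.mem_sup_right h4)))

/-- The projection is equivariant. -/
lemma rho_proj (g : G.Γ) (i : ℕ) (a : W.H X) :
    proj (W.isInternal X) i (G.ρ g a) = G.ρ g (proj (W.isInternal X) i a) := by
  refine gr_induction (W.isInternal X) (p := fun a =>
    proj (W.isInternal X) i (G.ρ g a) = G.ρ g (proj (W.isInternal X) i a)) ?_ ?_ a
  · intro l a ha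
    by_cases hl : l = i
    · subst hl
      rw [proj_same _ ha, proj_same _ (G.galois.gr_mem g l a ha)]
    · rw [proj_ne _ ha hl, proj_ne _ (G.galois.gr_mem g l a ha) hl, map_zero]
  · intro a b ha hb
    rw [map_add, map_add, map_add, map_add, ha, hb]

end Pool.Agent.N178.Ss
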