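import Pool.Agent.N178.Ss2

/-!
# Semisimplicity from the Tate conjecture for open subvarieties
-/

open CategoryTheory AlgebraicGeometry

universe u v w

namespace Pool.Agent.N178.Ss

open Pool.Agent.H914 Pool.Agent.H914.VarClass Pool.Agent.H914.VarClass.Obj
  Pool.Agent.H914.WeilCohomology Pool.Agent.TH125.Gal Pool.Agent.R936 Pool.Agent.H447

section Proj

variable {K : Type*} [Field K] {V : Type*} [AddCommGroup V] [Module K V]

lemma exists_projection {M R : Submodule K V} (h : IsCompl M R) : ∃ q : Module.End K V,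
    (∀ m ∈ M, q m = m) ∧ (∀ r ∈ R, q r = 0) ∧ (∀ a, q a ∈ M) ∧ ∀ a, a - q a ∈ R := by
  refine ⟨M.subtype ∘ₗ M.projectionOnto R h, fun m hm => ?_, fun r hr => ?_, fun a => ?_,
    fun a => ?_⟩
  · exact congrArg Subtype.val (Submodule.projectionOnto_apply_left h ⟨m, hm⟩)
  · rw [LinearMap.comp_apply, Submodule.projectionOnto_apply_of_mem_right h hr, map_zero]
  · exact (M.projectionOnto R h a).2
  · have h1 : M.projectionOnto R h (a - M.projectionOnto R h a) = 0 := by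
      rw [map_sub, Submodule.projectionOnto_apply_left, sub_self]
    rw [← LinearMap.mem_ker, Submodule.ker_projectionOnto] at h1
    exact h1

end Proj

variable {k : Type u} [Field k] {𝒱 : VarClass k} {ops : CycleOps 𝒱}
  {W : WeilCohomology.{u, v} ops} {X : 𝒱.Obj} {G : SquareAction.{u, v, w} W X}

/-- The projection onto a stable subspace with a stable complement is equivariant. -/
lemma exists_equivariant {i : ℕ} {M M' : Submodule W.K (W.H X)} {Δ : Subgroup G.Γ}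
    (h1 : M ⊓ M' = ⊥) (h2 : M ⊔ M' = W.gr X i) (hM : Inv G.ρ Δ M) (hM' : Inv G.ρ Δ M') :
    ∃ q : Module.End W.K (W.H X), (∀ m ∈ M, q m = m) ∧ (∀ m ∈ M', q m = 0) ∧ (∀ a, q a ∈ M) ∧
      (∀ j, j ≠ i → ∀ a ∈ W.gr X j, q a = 0) ∧ ∀ g ∈ Δ, ∀ a, q (G.ρ g a) = G.ρ g (q a) := by
  obtain ⟨q, hq1, hq2, hq3, hq4⟩ := exists_projection (isCompl_of_split h1 h2)
  refine ⟨q, hq1, fun m hm => hq2 m (Submodule.mem_sup_left hm), hq3, fun j hj a ha => ?_,
    fun g hg a => ?_⟩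
  · refine hq2 a (Submodule.mem_sup_right ?_)
    rw [LinearMap.mem_ker, proj_ne _ ha hj]
  · have h3 : G.ρ g (a - q a) ∈ M' ⊔ LinearMap.ker (proj (W.isInternal X) i) := by
      obtain ⟨b, hb, c, hc, hbc⟩ := Submodule.mem_sup.1 (hq4 a)
      rw [← hbc, map_add]
      refine Submodule.add_mem _ (Submodule.mem_sup_left (hM' g hg b hb))
        (Submodule.mem_sup_right ?_)
      rw [LinearMap.mem_ker] at hc ⊢
      rw [rho_proj, hc, map_zero]
    have h4 : G.ρ g a = G.ρ g (q a) + G.ρ g (a - q a) := by rw [← map_add, add_sub_cancel]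
    rw [h4, map_add, hq2 _ h3, add_zero, hq1 _ (hM g hg _ (hq3 a))]

lemma isHom_of_supported {i : ℕ} {q : Module.End W.K (W.H X)} (h1 : ∀ a, q a ∈ W.gr X i)
    (h2 : ∀ j, j ≠ i → ∀ a ∈ W.gr X j, q a = 0) : IsHom (W.gr X) 0 q := by
  intro j a ha
  rw [add_zero]
  by_cases hj : 0 ≤ j
  · lift j to ℕ using hj
    rw [grZ_natCast] at ha ⊢
    by_cases hji : j = i
    · subst hji
      exact h1 a
    · rw [h2 j hji a ha]
      exact Submodule.zero_mem _
  · rw [grZ_of_neg (by omega)] at ha ⊢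
    rw [Submodule.mem_bot] at ha ⊢
    rw [ha, map_zero]

/-- The operators of degree zero which commute with `N`. -/
def AN (G : SquareAction.{u, v, w} W X) (N : Subgroup G.Γ) :
    Submodule W.K (Module.End W.K (W.H X)) where
  carrier := {x | IsHom (W.gr X) 0 x ∧ ∀ n ∈ N, cj G n x = x}
  add_mem' := by
    rintro x y ⟨h1, h2⟩ ⟨h3, h4⟩
    exact ⟨h1.add h3, fun n hn => by rw [map_add, h2 n hn, h4 n hn]⟩
  zero_mem' := ⟨isHom_zero 0, fun n _ => map_zero _⟩
  smul_mem' := by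
    rintro c x ⟨h1, h2⟩
    exact ⟨h1.smul c, fun n hn => by rw [map_smul, h2 n hn]⟩

lemma mem_AN {N : Subgroup G.Γ} {x : Module.End W.K (W.H X)} :
    x ∈ AN G N ↔ IsHom (W.gr X) 0 x ∧ ∀ n ∈ N, cj G n x = x := Iff.rfl

lemma comm_mem {Γ : Type*} [Group Γ] {N : Subgroup Γ} (hN : commutator Γ ≤ N) (g h : Γ) :
    g * h * g⁻¹ * h⁻¹ ∈ N :=
  hN (Subgroup.commutator_mem_commutator (Subgroup.mem_top g) (Subgroup.mem_top h))

lemma comm_mem' {Γ : Type*} [Group Γ] {N : Subgroup Γ} (hN : commutator Γ ≤ N) (g h : Γ) :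
    g⁻¹ * h⁻¹ * g * h ∈ N := by
  simpa using comm_mem hN g⁻¹ h⁻¹

lemma cj_AN {N : Subgroup G.Γ} (hN : commutator G.Γ ≤ N) (g : G.Γ)
    {x : Module.End W.K (W.H X)} (hx : x ∈ AN G N) : cj G g x ∈ AN G N := by
  rw [mem_AN] at hx ⊢
  refine ⟨cj_isHom hx.1, fun n hn => ?_⟩
  have h1 : n * g = g * (n * (n⁻¹ * g⁻¹ * n * g)) := by group
  rw [← cj_mul, h1, cj_mul, hx.2]
  exact N.mul_mem hn (comm_mem' hN n g)

/-- The conjugations on these operators. -/
noncomputable def CN {N : Subgroup G.Γ} (hN : commutator G.Γ ≤ N) (g : G.Γ) :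
    Module.End W.K (AN G N) where
  toFun x := ⟨cj G g x - x, (AN G N).sub_mem (cj_AN hN g x.2) x.2⟩
  map_add' x y := by
    apply Subtype.ext
    change cj G g (x.1 + y.1) - (x.1 + y.1) = (cj G g x.1 - x.1) + (cj G g y.1 - y.1)
    rw [map_add]
    abel
  map_smul' c x := by
    apply Subtype.ext
    change cj G g (c • x.1) - c • x.1 = c • (cj G g x.1 - x.1)
    rw [map_smul, smul_sub]

lemma CN_coe {N : Subgroup G.Γ} (hN : commutator G.Γ ≤ N) (g : G.Γ) (x : AN G N) :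
    ((CN hN g x : AN G N) : Module.End W.K (W.H X)) = cj G g x - x := rfl

lemma CN_comm {N : Subgroup G.Γ} (hN : commutator G.Γ ≤ N) (g h : G.Γ) :
    Commute (CN hN g) (CN hN h) := by
  have key : ∀ x : AN G N, cj G g (cj G h x) = cj G h (cj G g x) := by
    intro x
    have h1 : g * h = g * h * g⁻¹ * h⁻¹ * (h * g) := by group
    rw [← cj_mul, h1, cj_mul, (mem_AN.1 (cj_AN hN (h * g) x.2)).2 _ (comm_mem hN g h), cj_mul]
  apply LinearMap.ext
  intro x
  apply Subtype.ext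
  rw [Module.End.mul_apply, Module.End.mul_apply, CN_coe, CN_coe, CN_coe, CN_coe, map_sub, map_sub,
    key]
  abel

/-- **The Tate conjecture for open subvarieties implies semisimplicity.** -/
theorem ss_of_uniAlg {N : Subgroup G.Γ} (hN : commutator G.Γ ≤ N) {i : ℕ}
    (hs : SS G.ρ N (W.gr X i)) (h : UniAlg W (X.prod X) G.χ G.υ X.dim) :
    SS G.ρ ⊤ (W.gr X i) := by
  intro M hMi hM
  obtain ⟨M', -, hM', h1, h2⟩ := hs M hMi (hM.mono le_top)
  obtain ⟨q, hq1, -, hq3, hq4, hq5⟩ := exists_equivariant h1 h2 (hM.mono le_top) hM'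
  have hqA : q ∈ AN G N := mem_AN.2 ⟨isHom_of_supported (fun a => hMi (hq3 a)) hq4,
    fun n hn => cj_eq_iff.2 (hq5 n hn)⟩
  -- the direction
  let B : Submodule W.K (AN G N) :=
    { carrier := {x | (∀ a ∈ W.gr X i, x.1 a ∈ M) ∧ (∀ a ∈ M, x.1 a = 0) ∧
        ∀ j, j ≠ i → ∀ a ∈ W.gr X j, x.1 a = 0}
      add_mem' := by
        rintro x y ⟨a1, a2, a3⟩ ⟨b1, b2, b3⟩
        refine ⟨fun a ha => M.add_mem (a1 a ha) (b1 a ha), fun a ha => ?_, fun j hj a ha => ?_⟩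
        · change x.1 a + y.1 a = 0
          rw [a2 a ha, b2 a ha, add_zero]
        · change x.1 a + y.1 a = 0
          rw [a3 j hj a ha, b3 j hj a ha, add_zero]
      zero_mem' := ⟨fun a _ => M.zero_mem, fun a _ => rfl, fun j _ a _ => rfl⟩
      smul_mem' := by
        rintro c x ⟨a1, a2, a3⟩
        refine ⟨fun a ha => M.smul_mem c (a1 a ha), fun a ha => ?_, fun j hj a ha => ?_⟩
        · change c • x.1 a = 0
          rw [a2 a ha, smul_zero]
        · change c • x.1 a = 0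
          rw [a3 j hj a ha, smul_zero] }
  let P : Set (AN G N) := {x | (∀ a ∈ W.gr X i, x.1 a ∈ M) ∧ (∀ a ∈ M, x.1 a = a) ∧
        ∀ j, j ≠ i → ∀ a ∈ W.gr X j, x.1 a = 0}
  have hcjv : ∀ (g : G.Γ) (x : Module.End W.K (W.H X)) (a : W.H X),
      cj G g x a = G.ρ g (x (G.ρ g⁻¹ a)) := fun g x a => rfl
  have hinv : ∀ (g : G.Γ), ∀ a ∈ M, G.ρ g a ∈ M := fun g a ha => hM g (Subgroup.mem_top g) a ha
  have hB : Stab (K := W.K) (A := AN G N) (CN hN) B := by
    rintro g x ⟨a1, a2, a3⟩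
    refine ⟨fun a ha => ?_, fun a ha => ?_, fun j hj a ha => ?_⟩
    · rw [CN_coe, LinearMap.sub_apply, hcjv]
      exact M.sub_mem (hinv g _ (a1 _ (G.galois.gr_mem g⁻¹ i a ha))) (a1 a ha)
    · rw [CN_coe, LinearMap.sub_apply, hcjv, a2 a ha, a2 _ (hinv g⁻¹ a ha), map_zero, sub_self]
    · rw [CN_coe, LinearMap.sub_apply, hcjv, a3 j hj a ha,
        a3 j hj _ (G.galois.gr_mem g⁻¹ j a ha), map_zero, sub_self]
  have hPB : ∀ x ∈ P, ∀ b ∈ B, x - b ∈ P := by
    rintro x ⟨a1, a2, a3⟩ y ⟨b1, b2, b3⟩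
    refine ⟨fun a ha => M.sub_mem (a1 a ha) (b1 a ha), fun a ha => ?_, fun j hj a ha => ?_⟩
    · change x.1 a - y.1 a = a
      rw [a2 a ha, b2 a ha, sub_zero]
    · change x.1 a - y.1 a = 0
      rw [a3 j hj a ha, b3 j hj a ha, sub_zero]
  have hTP : ∀ g, ∀ x ∈ P, CN hN g x ∈ B := by
    rintro g x ⟨a1, a2, a3⟩
    refine ⟨fun a ha => ?_, fun a ha => ?_, fun j hj a ha => ?_⟩
    · rw [CN_coe, LinearMap.sub_apply, hcjv]
      exact M.sub_mem (hinv g _ (a1 _ (G.galois.gr_mem g⁻¹ i a ha))) (a1 a ha)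
    · rw [CN_coe, LinearMap.sub_apply, hcjv, a2 a ha, a2 _ (hinv g⁻¹ a ha), rho_inv, sub_self]
    · rw [CN_coe, LinearMap.sub_apply, hcjv, a3 j hj a ha,
        a3 j hj _ (G.galois.gr_mem g⁻¹ j a ha), map_zero, sub_self]
  obtain ⟨x, ⟨a1, a2, a3⟩, hx⟩ := exists_fixed (CN_comm hN) hB (P := P)
    ⟨⟨q, hqA⟩, fun a _ => hq3 a, hq1, hq4⟩ hPB hTP (by
      intro x hx g
      apply Subtype.ext
      rw [CN_coe, fixed_of_two h (mem_AN.1 x.2).1 (fun g g' => ?_) g, sub_self]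
      · rfl
      · have h3 := congrArg Subtype.val (hx g g')
        rw [CN_coe, CN_coe] at h3
        exact sub_eq_zero.1 h3)
  have heq : ∀ g a, x.1 (G.ρ g a) = G.ρ g (x.1 a) := by
    intro g
    rw [← cj_eq_iff]
    have h3 := congrArg Subtype.val (hx g)
    rw [CN_coe] at h3
    exact sub_eq_zero.1 h3
  refine ⟨W.gr X i ⊓ LinearMap.ker x.1, inf_le_left, ?_, ?_, ?_⟩
  · rintro g _ a ⟨ha, ha'⟩
    refine ⟨G.galois.gr_mem g i a ha, ?_⟩
    have ha'' : x.1 a = 0 := ha'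
    change x.1 (G.ρ g a) = 0
    rw [heq, ha'', map_zero]
  · rw [eq_bot_iff]
    rintro a ⟨ha, -, ha'⟩
    rw [Submodule.mem_bot, ← a2 a ha]
    exact ha'
  · apply le_antisymm (sup_le hMi inf_le_left)
    intro a ha
    have h3 := a1 a ha
    rw [← add_sub_cancel (x.1 a) a]
    refine Submodule.add_mem _ (Submodule.mem_sup_left h3) (Submodule.mem_sup_right
      ⟨Submodule.sub_mem _ ha (hMi h3), ?_⟩)
    change x.1 (a - x.1 a) = 0
    rw [map_sub, a2 _ h3, sub_self]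

end Pool.Agent.N178.Ss
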