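import Pool.Agent.N178.Ss3

/-!
# The Tate conjecture for the square, semisimplicity and the standard conjecture D
-/

open CategoryTheory AlgebraicGeometry

universe u v w

namespace Pool.Agent.N178.Ss

open Pool.Agent.H914 Pool.Agent.H914.VarClass Pool.Agent.H914.VarClass.Obj
  Pool.Agent.H914.WeilCohomology Pool.Agent.TH125.Gal Pool.Agent.R936 Pool.Agent.H447

variable {k : Type u} [Field k] {𝒱 : VarClass k} {ops : CycleOps 𝒱}
  {W : WeilCohomology.{u, v} ops} {X : 𝒱.Obj} {G : SquareAction.{u, v, w} W X}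

lemma mem_gr_image {f : Module.End W.K (W.H X)} (hf : IsHom (W.gr X) 0 f) {i : ℕ} {a : W.H X}
    (ha : a ∈ W.gr X i) : f a ∈ W.gr X i := by
  have h1 := hf i a (by rw [grZ_natCast]; exact ha)
  rw [add_zero, grZ_natCast] at h1
  exact h1

/-- The quasi-inverse of an equivariant operator in a semisimple degree. -/
lemma exists_quasi {Δ : Subgroup G.Γ} {f : Module.End W.K (W.H X)} (hf : IsHom (W.gr X) 0 f)
    (hfc : ∀ g ∈ Δ, ∀ a, f (G.ρ g a) = G.ρ g (f a)) {i : ℕ} (hs : SS G.ρ Δ (W.gr X i))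
    (hne : ∃ a ∈ W.gr X i, f a ≠ 0) :
    ∃ h q : Module.End W.K (W.H X), IsHom (W.gr X) 0 h ∧
      (∀ g ∈ Δ, ∀ a, h (G.ρ g a) = G.ρ g (h a)) ∧ f * h = q ∧ q * q = q ∧ q ≠ 0 ∧
      ∀ a, q a ∈ W.gr X i := by
  obtain ⟨C, hCi, hC, hC1, hC2⟩ := hs (W.gr X i ⊓ LinearMap.ker f) inf_le_left (by
    rintro g hg a ⟨ha, ha'⟩
    refine ⟨G.galois.gr_mem g i a ha, ?_⟩
    have ha'' : f a = 0 := ha'
    change f (G.ρ g a) = 0
    rw [hfc g hg, ha'', map_zero])
  have hMi : (W.gr X i).map f ≤ W.gr X i := by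
    rintro _ ⟨a, ha, rfl⟩
    exact mem_gr_image hf ha
  have hMinv : Inv G.ρ Δ ((W.gr X i).map f) := by
    rintro g hg _ ⟨a, ha, rfl⟩
    exact ⟨G.ρ g a, G.galois.gr_mem g i a ha, hfc g hg a⟩
  obtain ⟨M', -, hM', hM1, hM2⟩ := hs _ hMi hMinv
  obtain ⟨q, hq1, -, hq3, hq4, hq5⟩ := exists_equivariant hM1 hM2 hMinv hM'
  have hinjC : ∀ c ∈ C, f c = 0 → c = 0 := by
    intro c hc h0
    have h1 : c ∈ (W.gr X i ⊓ LinearMap.ker f) ⊓ C := ⟨⟨hCi hc, h0⟩, hc⟩
    rw [hC1] at h1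
    exact (Submodule.mem_bot _).1 h1
  have hres : ∀ c ∈ C, f c ∈ (W.gr X i).map f := fun c hc => ⟨c, hCi hc, rfl⟩
  have hbij : Function.Bijective (f.restrict hres) := by
    constructor
    · rw [injective_iff_map_eq_zero]
      intro c hc
      exact Subtype.ext (hinjC c.1 c.2 (congrArg Subtype.val hc))
    · rintro ⟨_, a, ha, rfl⟩
      have h1 : a ∈ (W.gr X i ⊓ LinearMap.ker f) ⊔ C := by
        rw [hC2]
        exact ha
      obtain ⟨b, ⟨-, hb⟩, c, hc, rfl⟩ := Submodule.mem_sup.1 h1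
      have hb' : f b = 0 := hb
      refine ⟨⟨c, hc⟩, Subtype.ext ?_⟩
      change f c = f (b + c)
      rw [map_add, hb', zero_add]
  let e := LinearEquiv.ofBijective (f.restrict hres) hbij
  let h : Module.End W.K (W.H X) := C.subtype ∘ₗ e.symm.toLinearMap ∘ₗ (q.codRestrict _ hq3)
  have hhC : ∀ a, h a ∈ C := fun a => (e.symm (q.codRestrict _ hq3 a)).2
  have hfh : ∀ a, f (h a) = q a := fun a =>
    congrArg Subtype.val (e.apply_symm_apply (q.codRestrict _ hq3 a))
  refine ⟨h, q, isHom_of_supported (fun a => hCi (hhC a)) (fun j hj a ha => ?_), fun g hg a => ?_,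
    LinearMap.ext hfh, ?_, ?_, fun a => hMi (hq3 a)⟩
  · apply hinjC _ (hhC a)
    rw [hfh, hq4 j hj a ha]
  · have h1 : h (G.ρ g a) - G.ρ g (h a) ∈ C := C.sub_mem (hhC _) (hC g hg _ (hhC a))
    apply sub_eq_zero.1
    apply hinjC _ h1
    rw [map_sub, hfc g hg, hfh, hfh, hq5 g hg, sub_self]
  · apply LinearMap.ext
    intro a
    exact hq1 _ (hq3 a)
  · rintro rfl
    obtain ⟨a, ha, hne⟩ := hne
    apply hne
    exact (hq1 (f a) ⟨a, ha, rfl⟩).symm

/-- **The Tate conjecture and semisimplicity imply the conjecture D.** -/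
theorem homEqNumIn_of_tate (hT : TateSquare G) (hs : ∀ i, SS G.ρ ⊤ (W.gr X i)) :
    HomEqNumIn W (X.prod X) X.dim := by
  intro z hz hnum
  by_contra hne
  have hf0 : W.corr (W.cl _ z) ≠ 0 := fun h => hne (corr_inj h)
  obtain ⟨i, hi⟩ : ∃ i, ∃ a ∈ W.gr X i, W.corr (W.cl _ z) a ≠ 0 := by
    by_contra hcon
    push Not at hcon
    apply hf0
    apply gr_ext (W.isInternal X)
    intro i a ha
    rw [hcon i a ha, LinearMap.zero_apply]
  obtain ⟨Δ1, hΔ1, hfix⟩ := G.galoisSq.cl_fix X.dim (W.cl _ z) ⟨z, hz, rfl⟩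
  have hfi : Δ1.normalCore.FiniteIndex := inferInstance
  have hfc : ∀ g ∈ Δ1.normalCore, ∀ a,
      W.corr (W.cl _ z) (G.ρ g a) = G.ρ g (W.corr (W.cl _ z) a) := fun g hg =>
    cj_eq_iff.1 (fix_iff.1 (hfix g (Δ1.normalCore_le hg)))
  have hsΔ := (hs i).normal Δ1.normalCore_normal (fun g _ a ha => G.galois.gr_mem g i a ha)
  obtain ⟨h, q, hh, hhc, hfh, hqq, hq0, hqi⟩ := exists_quasi (isHom_of_gr (W.cl_mem hz)) hfc hsΔ hi
  obtain ⟨c, hc, rfl⟩ := exists_class_zero hh
  have hc' : c ∈ Submodule.span W.K (algClasses W (X.prod X) X.dim) := by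
    refine hT c hc ⟨Δ1.normalCore, hfi, fun g hg => ?_⟩
    rw [Submodule.span_empty, Submodule.mem_bot, sub_eq_zero]
    exact fix_iff.2 (cj_eq_iff.2 (hhc g hg))
  rw [← spanCycles_eq] at hc'
  have hc'' := swap_span hc'
  rw [spanCycles_eq] at hc''
  -- the intersection number
  have h1 : W.tr (X.prod X) (W.cl _ z * W.map (swap X X) c) = 0 := by
    have key : ∀ d ∈ Submodule.span W.K (algClasses W (X.prod X) X.dim),
        W.tr (X.prod X) (W.cl _ z * d) = 0 := by
      intro d hd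
      induction hd using Submodule.span_induction with
      | mem d hd =>
        obtain ⟨w, hw, rfl⟩ := hd
        rw [tr_mul_cl hz hw (by rw [dim_prod]), hnum w (by
          rw [dim_prod, show X.dim + X.dim - X.dim = X.dim by omega]
          exact hw), Rat.cast_zero]
      | zero => rw [mul_zero, map_zero]
      | add a b _ _ ha hb => rw [mul_add, map_add, ha, hb, add_zero]
      | smul r a _ ha => rw [mul_smul_comm, map_smul, ha, smul_zero]
    exact key _ hc''
  rw [tr_mul_eq_trace (W.cl_mem hz), map_swap_swap, mul_assoc, hfh] at h1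
  have h2 : par (W.isInternal X) * q = (-1 : W.K) ^ i • q := by
    apply LinearMap.ext
    intro a
    rw [Module.End.mul_apply, par, scal_apply _ _ (hqi a), LinearMap.smul_apply]
  rw [h2, map_smul, smul_eq_mul] at h1
  have h3 : LinearMap.trace W.K (W.H X) q = 0 := by
    rcases mul_eq_zero.1 h1 with h4 | h4
    · exact absurd h4 (pow_ne_zero _ (by norm_num))
    · exact h4
  exact hq0 (eq_zero_of_idem_of_trace_eq_zero hqq h3)

/-- **The Tate conjecture and the conjecture D imply the Tate conjecture for the open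
subvarieties.** -/
theorem tateOpen_of_homEqNumIn (hT : TateSquare G) (hD : HomEqNumIn W (X.prod X) X.dim)
    (U : (X.prod X).V.X.Opens) : TateOpen G U := by
  rintro c hc ⟨Δ, hΔ, h⟩
  obtain ⟨Δ', hΔ', h'⟩ := exists_fix (M := Submodule.span W.K (algClasses W (X.prod X) X.dim))
    (fun c hc => span_fix G.galoisSq hc)
  refine hT c hc ⟨Δ ⊓ Δ', inferInstance, fun g hg => ?_⟩
  rw [Submodule.span_empty, Submodule.mem_bot]
  have h1 : G.υ g c - ((G.χ g : W.K) ^ X.dim) • c ∈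
      Submodule.span W.K (algClasses W (X.prod X) X.dim) :=
    Submodule.span_mono (removed_sub X.dim U) (h g hg.1)
  rw [← spanCycles_eq] at h1
  refine hD.span (p := X.dim) (by rw [dim_prod]) h1 fun w hw => ?_
  have hχ : ((G.χ g : W.K) ^ X.dim) ≠ 0 := pow_ne_zero _ (Units.ne_zero _)
  have h2 : G.υ g (W.cl _ w) = ((G.χ g : W.K) ^ X.dim) • W.cl _ w :=
    h' g hg.2 _ (Submodule.subset_span ⟨w, hw, rfl⟩)
  have h3 := G.galoisSq.tr_act g (W.cl _ w * c)
  rw [map_mul, h2, smul_mul_assoc, map_smul, smul_eq_mul, dim_prod, pow_add, mul_assoc] at h3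
  have h4 := mul_left_cancel₀ hχ h3
  rw [mul_sub, map_sub, mul_smul_comm, map_smul, smul_eq_mul, h4, sub_self]

/-- **Semisimplicity and the Tate conjecture for the open subvarieties of a square.** -/
theorem open_tate_main (W : WeilCohomology.{u, v} ops) (X : 𝒱.Obj) :
    ∃ U₀ : (X.prod X).V.X.Opens, SmallComplement (X.prod X) X.dim U₀ ∧
      ∀ G : SquareAction.{u, v, w} W X,
        (TateOpen G U₀ → TateSquare G) ∧
        (TateSquare G → (∀ i, SemisimpleIn G ⊤ i) → HomEqNumIn W (X.prod X) X.dim) ∧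
        (TateSquare G → HomEqNumIn W (X.prod X) X.dim → ∀ U, TateOpen G U) ∧
        ∀ N : Subgroup G.Γ, commutator G.Γ ≤ N → (∀ i, SemisimpleIn G N i) →
          List.TFAE [
            TateOpen G U₀,
            ∀ U, SmallComplement (X.prod X) X.dim U → TateOpen G U,
            TateSquare G ∧ ∀ i, SemisimpleIn G ⊤ i,
            TateSquare G ∧ HomEqNumIn W (X.prod X) X.dim] := by
  obtain ⟨U₀, hU, hU'⟩ := exists_open W (X.prod X) X.dim
  have hTT : ∀ G : SquareAction.{u, v, w} W X, TateOpen G U₀ → TateSquare G := by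
    rintro G h c hc ⟨Δ, hΔ, h'⟩
    refine h c hc ⟨Δ, hΔ, fun g hg => ?_⟩
    have h1 := h' g hg
    rw [Submodule.span_empty, Submodule.mem_bot] at h1
    rw [h1]
    exact Submodule.zero_mem _
  refine ⟨U₀, hU, fun G => ⟨hTT G, homEqNumIn_of_tate, tateOpen_of_homEqNumIn,
    fun N hN hs => ?_⟩⟩
  tfae_have 1 → 3 := by
    intro h
    have hA : UniAlg W (X.prod X) G.χ G.υ X.dim := uniAlg_of_open hU' h
    exact ⟨hTT G h, fun i => ss_of_uniAlg hN (hs i) hA⟩
  tfae_have 3 → 4 := fun h => ⟨h.1, homEqNumIn_of_tate h.1 h.2⟩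
  tfae_have 4 → 2 := fun h U _ => tateOpen_of_homEqNumIn h.1 h.2 U
  tfae_have 2 → 1 := fun h => h U₀ hU
  tfae_finish

end Pool.Agent.N178.Ss
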