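import Pool.Agent.R936.UniDefs
import Pool.Agent.H447R3.DegDefs
import Pool.Agent.N178.Ss1

/-!
# The Tate conjecture for the open subvarieties of a square: definitions
-/

open CategoryTheory AlgebraicGeometry

universe u v w

namespace Pool.Agent.N178.Ss

open Pool.Agent.H914 Pool.Agent.H914.VarClass Pool.Agent.H914.VarClass.Obj
  Pool.Agent.H914.WeilCohomology Pool.Agent.TH125.Gal Pool.Agent.R936 Pool.Agent.H447

variable {k : Type u} [Field k] {𝒱 : VarClass k} {ops : CycleOps 𝒱}

/-- A group `Γ` with a character `χ` which acts on the cohomology algebras of `X` and of `X × X`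
like the Galois group of a finitely generated field over which `X` is defined (`χ` is the action on
the Tate twists). -/
structure SquareAction (W : WeilCohomology.{u, v} ops) (X : 𝒱.Obj) where
  /-- the group -/
  Γ : Type w
  [group : Group Γ]
  /-- the character -/
  χ : Γ →* W.Kˣ
  /-- the action on the cohomology of `X` -/
  ρ : Γ →* (W.H X ≃ₐ[W.K] W.H X)
  /-- the action on the cohomology of `X × X` -/
  υ : Γ →* (W.H (X.prod X) ≃ₐ[W.K] W.H (X.prod X))
  galois : IsGaloisAct χ (W.gr X) X.dim (W.tr X) (algClasses W X) ρ
  galoisSq : IsGaloisAct χ (W.gr (X.prod X)) (X.prod X).dim (W.tr (X.prod X))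
    (algClasses W (X.prod X)) υ
  left : Intertwines (W.map (fst X X)) ρ υ
  right : Intertwines (W.map (snd X X)) ρ υ

attribute [instance] SquareAction.group

variable {W : WeilCohomology.{u, v} ops} {X : 𝒱.Obj}

/-- The subgroup `Δ` acts semisimply on `H^i(X)`: every subspace of `H^i(X)` which is stable under
`Δ` has a complement which is stable under `Δ`. -/
def SemisimpleIn (G : SquareAction.{u, v, w} W X) (Δ : Subgroup G.Γ) (i : ℕ) : Prop :=
  SS G.ρ Δ (W.gr X i)

/-- The Tate conjecture in codimension `dim X` for `X × X`, over all finite extensions of the ground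
field: the classes in `H^(2 dim X)(X × X)` which are multiplied by `χ g ^ dim X` by all `g` in a
subgroup of finite index are linear combinations of classes of algebraic cycles. -/
def TateSquare (G : SquareAction.{u, v, w} W X) : Prop :=
  TateMod G.χ (W.gr (X.prod X)) G.υ X.dim ∅ (algClasses W (X.prod X) X.dim)

/-- The Tate conjecture in codimension `dim X` for the open subvariety `U` of `X × X`, whose
complement has codimension at least `dim X`, over all finite extensions of the ground field: if the
restriction to `U` of the class `c` in `H^(2 dim X)(X × X)` is multiplied by `χ g ^ dim X` by all `g`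
in a subgroup of finite index, then `c` is a linear combination of classes of algebraic cycles. -/
def TateOpen (G : SquareAction.{u, v, w} W X) (U : (X.prod X).V.X.Opens) : Prop :=
  TateMod G.χ (W.gr (X.prod X)) G.υ X.dim (removedClasses W (X.prod X) X.dim U)
    (algClasses W (X.prod X) X.dim)

end Pool.Agent.N178.Ss
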